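import Pool.Agent.Helper44.Hex.Final

/-!
Triangle-free hexagonal graphs (McDiarmid's question), in the words of the problem file: the
triangular lattice as a set of points of the Euclidean plane, with the pairs of points at
distance one as edges.
-/

namespace Pool.Agent.Results.MP_45c1aa_co.IndependenceRatio

open Pool.Agent.H44

/-- the first basis vector of the lattice -/
noncomputable def e₁ : EuclideanSpace ℝ (Fin 2) := !₂[1, 0]

/-- the second basis vector of the lattice -/
noncomputable def e₂ : EuclideanSpace ℝ (Fin 2) := !₂[1 / 2, √3 / 2]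

/-- The vertices of the triangular lattice: the points `a e₁ + b e₂`, `a` and `b` integers. -/
def TL : Set (EuclideanSpace ℝ (Fin 2)) := {p | ∃ a b : ℤ, p = (a : ℝ) • e₁ + (b : ℝ) • e₂}

/-- The triangular lattice as a graph: two vertices are adjacent exactly when their Euclidean
distance is `1`. -/
def triLattice : SimpleGraph TL where
  Adj p q := dist (p : EuclideanSpace ℝ (Fin 2)) (q : EuclideanSpace ℝ (Fin 2)) = 1
  symm := ⟨fun p q h => by
    rw [dist_comm]
    exact h⟩
  loopless := ⟨fun p h => by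
    rw [dist_self] at h
    exact zero_ne_one h⟩

/-! ### Coordinates -/

/-- the integer coordinates of a vertex -/
noncomputable def co (p : TL) : ℤ × ℤ := (p.2.choose, p.2.choose_spec.choose)

theorem co_spec (p : TL) : (p : EuclideanSpace ℝ (Fin 2)) = ((co p).1 : ℝ) • e₁ + ((co p).2 : ℝ) • e₂ :=
  p.2.choose_spec.choose_spec

theorem co_inj : Function.Injective co := by
  intro p q h
  apply Subtype.ext
  rw [co_spec p, co_spec q, h]

theorem coord0 (a b : ℝ) : (a • e₁ + b • e₂) 0 = a + b / 2 := by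
  simp [e₁, e₂]
  ring

theorem coord1 (a b : ℝ) : (a • e₁ + b • e₂) 1 = b * (√3 / 2) := by
  simp [e₁, e₂]

theorem dist_eq_one (a b a' b' : ℤ) :
    dist ((a : ℝ) • e₁ + (b : ℝ) • e₂) ((a' : ℝ) • e₁ + (b' : ℝ) • e₂) = 1 ↔
      (a' - a) ^ 2 + (a' - a) * (b' - b) + (b' - b) ^ 2 = 1 := by
  have h3 : √3 ^ 2 = 3 := Real.sq_sqrt (by norm_num)
  have h1 : dist ((a : ℝ) • e₁ + (b : ℝ) • e₂) ((a' : ℝ) • e₁ + (b' : ℝ) • e₂) =
      √(((a' - a : ℤ) : ℝ) ^ 2 + ((a' - a : ℤ) : ℝ) * ((b' - b : ℤ) : ℝ) +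
        ((b' - b : ℤ) : ℝ) ^ 2) := by
    rw [EuclideanSpace.dist_eq, Fin.sum_univ_two, coord0, coord0, coord1, coord1,
      Real.dist_eq, Real.dist_eq, sq_abs, sq_abs]
    congr 1
    push_cast
    linear_combination (((b : ℝ) - b') ^ 2 / 4) * h3
  rw [h1, Real.sqrt_eq_one]
  constructor
  · intro h
    exact_mod_cast h
  · intro h
    exact_mod_cast h

theorem six {x y : ℤ} (h : x ^ 2 + x * y + y ^ 2 = 1) :
    (x, y) = (1, 0) ∨ (x, y) = (-1, 0) ∨ (x, y) = (0, 1) ∨ (x, y) = (0, -1) ∨
      (x, y) = (1, -1) ∨ (x, y) = (-1, 1) := by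
  have hx : x ^ 2 ≤ 1 := by nlinarith [sq_nonneg (x + 2 * y)]
  have hy : y ^ 2 ≤ 1 := by nlinarith [sq_nonneg (2 * x + y)]
  have hx1 : -1 ≤ x := by nlinarith
  have hx2 : x ≤ 1 := by nlinarith
  have hy1 : -1 ≤ y := by nlinarith
  have hy2 : y ≤ 1 := by nlinarith
  interval_cases x <;> interval_cases y <;> simp_all

theorem adj_iff (p q : TL) : triLattice.Adj p q ↔
    (co q - co p = (1, 0) ∨ co q - co p = (-1, 0) ∨ co q - co p = (0, 1) ∨
      co q - co p = (0, -1) ∨ co q - co p = (1, -1) ∨ co q - co p = (-1, 1)) := by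
  have h1 : triLattice.Adj p q ↔ ((co q).1 - (co p).1) ^ 2 +
      ((co q).1 - (co p).1) * ((co q).2 - (co p).2) + ((co q).2 - (co p).2) ^ 2 = 1 := by
    rw [← dist_eq_one, ← co_spec, ← co_spec]
    rfl
  have h2 : co q - co p = ((co q).1 - (co p).1, (co q).2 - (co p).2) := rfl
  rw [h1, h2]
  constructor
  · exact six
  · rintro (h | h | h | h | h | h) <;> (rw [Prod.mk.injEq] at h; rw [h.1, h.2]; norm_num)

theorem six_e3 {x : ℤ × ℤ} (h : x = (1, 0) ∨ x = (-1, 0) ∨ x = (0, 1) ∨ x = (0, -1) ∨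
    x = (1, -1) ∨ x = (-1, 1)) : ∃ i : Fin 3, x = e3 i ∨ -x = e3 i := by
  rcases h with rfl | rfl | rfl | rfl | rfl | rfl
  · exact ⟨0, Or.inl rfl⟩
  · exact ⟨0, Or.inr rfl⟩
  · exact ⟨1, Or.inl rfl⟩
  · exact ⟨1, Or.inr rfl⟩
  · exact ⟨2, Or.inr rfl⟩
  · exact ⟨2, Or.inl rfl⟩

/-- Every triangle-free hexagonal graph `G` (a finite induced subgraph of the triangular lattice)
satisfies `α(G) ≥ (4/9) |V(G)|`, and `G` can be made bipartite by deleting at most `|V(G)|/9`
edges. -/
theorem result (S : Finset TL) (h : (triLattice.induce (S : Set TL)).CliqueFree 3) :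
    (4 / 9 : ℝ) * S.card ≤ (triLattice.induce (S : Set TL)).indepNum ∧
    ∃ F : Finset (Sym2 (S : Set TL)),
      (F : Set (Sym2 (S : Set TL))) ⊆ (triLattice.induce (S : Set TL)).edgeSet ∧
      (F.card : ℝ) ≤ S.card / 9 ∧
      ((triLattice.induce (S : Set TL)).deleteEdges F).IsBipartite := by
  classical
  set G := triLattice.induce (S : Set TL) with hG
  set c : ↥(S : Set TL) → ℤ × ℤ := fun p => co p.1 with hc
  have hcinj : Function.Injective c := fun p q h => Subtype.ext (co_inj h)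
  set T : Finset (ℤ × ℤ) := S.image co with hT
  have hTS : T.card = S.card := Finset.card_image_of_injective S co_inj
  have hcT : ∀ p : (S : Set TL), c p ∈ T := fun p => Finset.mem_image_of_mem co p.2
  have hadj : ∀ p q : (S : Set TL), G.Adj p q ↔
      (c q - c p = (1, 0) ∨ c q - c p = (-1, 0) ∨ c q - c p = (0, 1) ∨
        c q - c p = (0, -1) ∨ c q - c p = (1, -1) ∨ c q - c p = (-1, 1)) :=
    fun p q => adj_iff p.1 q.1
  have hTf : TriFree T := by
    rintro v d ⟨h0, h1, h2⟩
    obtain ⟨p, hp, hp'⟩ := Finset.mem_image.1 h0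
    obtain ⟨q, hq, hq'⟩ := Finset.mem_image.1 h1
    obtain ⟨r, hr, hr'⟩ := Finset.mem_image.1 h2
    refine h {⟨p, hp⟩, ⟨q, hq⟩, ⟨r, hr⟩} (SimpleGraph.is3Clique_triple_iff.2 ⟨?_, ?_, ?_⟩)
    · rw [hadj]
      have a1 : c ⟨q, hq⟩ - c ⟨p, hp⟩ = e d := by
        show co q - co p = e d
        rw [hp', hq']
        abel
      rw [a1]
      exact e_unit _
    · rw [hadj]
      have a1 : c ⟨r, hr⟩ - c ⟨p, hp⟩ = e (d + 1) := by
        show co r - co p = e (d + 1)
        rw [hp', hr']
        abel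
      rw [a1]
      exact e_unit _
    · rw [hadj]
      have a1 : c ⟨r, hr⟩ - c ⟨q, hq⟩ = e (d + 2) := by
        show co r - co q = e (d + 2)
        rw [hq', hr', ← e_diff]
        abel
      rw [a1]
      exact e_unit _
  obtain ⟨σ, hσ⟩ := mono_bound hTf
  obtain ⟨I, hIS, hI, hIc⟩ := independent_of_mono hσ
  constructor
  · set J : Finset (S : Set TL) := Finset.univ.filter (fun p => c p ∈ I) with hJ
    have hJI : I.card ≤ J.card := by
      refine (Finset.card_le_card (s := I) (t := J.image c) ?_).trans Finset.card_image_le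
      intro v hv
      obtain ⟨p, hp, hp'⟩ := Finset.mem_image.1 (hIS hv)
      refine Finset.mem_image.2 ⟨⟨p, hp⟩, Finset.mem_filter.2 ⟨Finset.mem_univ _, ?_⟩, hp'⟩
      show co p ∈ I
      rw [hp']
      exact hv
    have hind : G.IsIndepSet J := by
      intro p hp q hq _ hpq
      have hp1 : c p ∈ I := (Finset.mem_filter.1 hp).2
      have hq1 : c q ∈ I := (Finset.mem_filter.1 hq).2
      obtain ⟨i, hi | hi⟩ := six_e3 ((hadj p q).1 hpq)
      · exact hI _ hp1 _ hq1 i hi
      · rw [neg_sub] at hi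
        exact hI _ hq1 _ hp1 i hi
    have h1 : J.card ≤ G.indepNum := hind.card_le_indepNum
    have h2 : 4 * S.card ≤ 9 * G.indepNum := by
      rw [← hTS]
      omega
    have h3 : (4 : ℝ) * S.card ≤ 9 * G.indepNum := by exact_mod_cast h2
    linarith
  · set F : Finset (Sym2 (S : Set TL)) := Finset.univ.filter (fun x => x ∈ G.edgeSet ∧
      ∃ p q : (S : Set TL), x = s(p, q) ∧ σ (c p) = σ (c q)) with hF
    refine ⟨F, ?_, ?_, ?_⟩
    · intro x hx
      exact (Finset.mem_filter.1 hx).2.1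
    · have hcard : F.card ≤ (mono T σ).card := by
        refine Finset.card_le_card_of_forall_subsingleton
          (fun x y => ∃ p q : (S : Set TL), x = s(p, q) ∧ c p = y.1 ∧ c q = y.1 + e3 y.2) ?_ ?_
        · intro x hx
          obtain ⟨-, hx1, p, q, rfl, hpq⟩ := Finset.mem_filter.1 hx
          obtain ⟨i, hi | hi⟩ := six_e3 ((hadj p q).1 ((SimpleGraph.mem_edgeSet G).1 hx1))
          · refine ⟨(c p, i), mono_of_edge (hcT p) (hcT q) hi hpq, p, q, rfl, rfl, ?_⟩
            show c q = c p + e3 i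
            rw [← hi]
            abel
          · rw [neg_sub] at hi
            refine ⟨(c q, i), mono_of_edge (hcT q) (hcT p) hi hpq.symm, q, p, Sym2.eq_swap, rfl,
              ?_⟩
            show c p = c q + e3 i
            rw [← hi]
            abel
        · rintro y - x ⟨-, p, q, rfl, hp, hq⟩ x' ⟨-, p', q', rfl, hp', hq'⟩
          rw [hcinj (hp.trans hp'.symm), hcinj (hq.trans hq'.symm)]
      have h1 : 9 * F.card ≤ S.card := by
        rw [← hTS]
        omega
      have h2 : (9 : ℝ) * F.card ≤ S.card := by exact_mod_cast h1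
      linarith
    · have hcol : (G.deleteEdges F).Coloring (ZMod 2) := SimpleGraph.Coloring.mk
        (fun p => σ (c p)) (by
          intro p q hpq hs
          rw [SimpleGraph.deleteEdges_adj] at hpq
          refine hpq.2 (Finset.mem_coe.2 (Finset.mem_filter.2 ⟨Finset.mem_univ _, ?_, p, q, rfl,
            hs⟩))
          exact (SimpleGraph.mem_edgeSet G).2 hpq.1)
      have h1 := hcol.colorable
      rwa [ZMod.card] at h1

end Pool.Agent.Results.MP_45c1aa_co.IndependenceRatio
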